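import Mathlib

set_option autoImplicit false

/-! MP_5c2e51_co, Q1 (answered positively, for every `W`, not only for maximal ones).

Rooted phylogenetic trees with leaf set `L` are represented by their hierarchies (cluster systems):
a vertex is the set of the leaves below it, the order of the tree is inclusion, the leaves are the
singletons and the root is `L`. Contracting an inner edge removes the corresponding cluster, and
the restriction to `W` has the nonempty traces on `W` as clusters. -/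

namespace Pool.Agent.Results.MP_5c2e51_co.DisplaysLRT

universe u v

/-- A rooted phylogenetic tree with leaf set `L`, given by its clusters. -/
structure Tree (L : Type u) where
  cl : Set (Set L)
  univ_mem : Set.univ ∈ cl
  singleton_mem : ∀ x, {x} ∈ cl
  nonempty : ∀ A ∈ cl, A.Nonempty
  nested : ∀ A ∈ cl, ∀ B ∈ cl, A ⊆ B ∨ B ⊆ A ∨ Disjoint A B

/-- The least common ancestor of two leaves: the smallest cluster containing both. -/
def Tree.lca {L : Type u} (T : Tree L) (x y : L) : Set L := ⋂₀ {A | A ∈ T.cl ∧ x ∈ A ∧ y ∈ A}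

/-- There is no `y'` of the colour of `y` with `lca(x,y')` strictly below `lca(x,y)`. -/
def Best {L : Type u} {S : Type v} (T : Tree L) (σ : L → S) (x y : L) : Prop :=
  ¬ ∃ y', σ y' = σ y ∧ T.lca x y' ⊂ T.lca x y

/-- `t` is a truncation map: it assigns to each leaf `x` and each colour `s ≠ σ x` a vertex
above `x`. -/
def IsTruncation {L : Type u} {S : Type v} (T : Tree L) (σ : L → S) (t : L → S → Set L) : Prop :=
  ∀ x s, s ≠ σ x → t x s ∈ T.cl ∧ x ∈ t x s

/-- `(G,σ) = qBMG(T,σ,t)`. -/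
def Explains {L : Type u} {S : Type v} (T : Tree L) (σ : L → S) (t : L → S → Set L)
    (G : L → L → Prop) : Prop :=
  IsTruncation T σ t ∧ ∀ x y, G x y ↔ σ x ≠ σ y ∧ Best T σ x y ∧ T.lca x y ⊆ t x (σ y)

/-- `(T,σ)` explains the best match graph `(G,σ)` (truncation map constant, equal to the root). -/
def ExplainsBMG {L : Type u} {S : Type v} (T : Tree L) (σ : L → S) (G : L → L → Prop) : Prop :=
  ∀ x y, G x y ↔ σ x ≠ σ y ∧ Best T σ x y ∧ T.lca x y ⊆ Set.univ

/-- `(T,σ)` is a least resolved tree of the qBMG `(G,σ)`. -/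
def IsLRT {L : Type u} {S : Type v} (T : Tree L) (σ : L → S) (G : L → L → Prop) : Prop :=
  (∃ t, Explains T σ t G) ∧ ∀ T' : Tree L, T'.cl ⊂ T.cl → ¬ ∃ t, Explains T' σ t G

/-- `(T,σ)` is a least resolved tree of the BMG `(G,σ)`. -/
def IsLRTofBMG {L : Type u} {S : Type v} (T : Tree L) (σ : L → S) (G : L → L → Prop) : Prop :=
  ExplainsBMG T σ G ∧ ∀ T' : Tree L, T'.cl ⊂ T.cl → ¬ ExplainsBMG T' σ G

/-- The tree `T` displays the tree `T'` with leaf set `W`: `T'` arises from the restriction of `T`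
to `W` (clusters: nonempty traces on `W` of the clusters of `T`) by contracting inner edges. -/
def Displays {L : Type u} (T : Tree L) {W : Set L} (T' : Tree W) : Prop :=
  T'.cl ⊆ {B | B.Nonempty ∧ ∃ A ∈ T.cl, B = Subtype.val ⁻¹' A}

section Basic

variable {L : Type u} [Finite L] (T : Tree L)

/-- The smallest cluster containing `A`. -/
def hull (A : Set L) : Set L := ⋂₀ {B | B ∈ T.cl ∧ A ⊆ B}

lemma comparable {A B : Set L} (hA : A ∈ T.cl) (hB : B ∈ T.cl) {x : L} (h1 : x ∈ A) (h2 : x ∈ B) :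
    A ⊆ B ∨ B ⊆ A := by
  rcases T.nested A hA B hB with h | h | h
  · exact Or.inl h
  · exact Or.inr h
  · exact absurd h2 (Set.disjoint_left.1 h h1)

lemma hull_le {A B : Set L} (hB : B ∈ T.cl) (h : A ⊆ B) : hull T A ⊆ B :=
  Set.sInter_subset_of_mem ⟨hB, h⟩

lemma subset_hull (A : Set L) : A ⊆ hull T A := Set.subset_sInter fun _ h => h.2

lemma hull_mem {A : Set L} (hA : A.Nonempty) : hull T A ∈ T.cl := by
  obtain ⟨B, hB, hmin⟩ := (wellFounded_lt (α := Set L)).has_min {B | B ∈ T.cl ∧ A ⊆ B}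
    ⟨Set.univ, T.univ_mem, Set.subset_univ _⟩
  have : hull T A = B := by
    apply Set.Subset.antisymm (hull_le T hB.1 hB.2)
    apply Set.subset_sInter
    intro C hC
    obtain ⟨x, hx⟩ := hA
    rcases comparable T hB.1 hC.1 (hB.2 hx) (hC.2 hx) with h | h
    · exact h
    · by_contra hc
      exact hmin C hC ⟨h, hc⟩
  rw [this]
  exact hB.1

lemma lca_eq (x y : L) : T.lca x y = hull T {x, y} := by
  unfold Tree.lca hull
  congr 1
  ext B
  simp [Set.insert_subset_iff]

lemma lca_mem (x y : L) : T.lca x y ∈ T.cl := by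
  rw [lca_eq]
  exact hull_mem T ⟨x, by simp⟩

lemma left_mem (x y : L) : x ∈ T.lca x y := by
  rw [lca_eq]
  exact subset_hull T _ (by simp)

lemma right_mem (x y : L) : y ∈ T.lca x y := by
  rw [lca_eq]
  exact subset_hull T _ (by simp)

lemma lca_le {x y : L} {A : Set L} (hA : A ∈ T.cl) (hx : x ∈ A) (hy : y ∈ A) : T.lca x y ⊆ A :=
  Set.sInter_subset_of_mem ⟨hA, hx, hy⟩

variable {S : Type v} (σ : L → S)

lemma best_iff (x y : L) : Best T σ x y ↔ ∀ y', σ y' = σ y → T.lca x y ⊆ T.lca x y' := by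
  unfold Best
  constructor
  · intro h y' hy'
    rcases comparable T (lca_mem T x y) (lca_mem T x y') (left_mem T x y) (left_mem T x y')
      with h' | h'
    · exact h'
    · by_contra hc
      exact h ⟨y', hy', h', hc⟩
  · rintro h ⟨y', hy', h1, h2⟩
    exact h2 (h y' hy')

/-- Existence of best matches. -/
lemma exists_best (x y₀ : L) : ∃ y, σ y = σ y₀ ∧ Best T σ x y := by
  obtain ⟨B, ⟨y, hy, rfl⟩, hmin⟩ := (wellFounded_lt (α := Set L)).has_min
    {B | ∃ y, σ y = σ y₀ ∧ B = T.lca x y} ⟨_, y₀, rfl, rfl⟩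
  refine ⟨y, hy, ?_⟩
  rintro ⟨y', hy', h⟩
  exact hmin _ ⟨y', hy'.trans hy, rfl⟩ h

/-- A leaf in `lca(x,y)` of the right colour is as good as a best match `y`. -/
lemma best_of_mem {x y z : L} (hb : Best T σ x y) (hz : σ z = σ y) (h : z ∈ T.lca x y) :
    Best T σ x z := by
  rw [best_iff] at hb ⊢
  intro y' hy'
  exact (lca_le T (lca_mem T x y) (left_mem T x y) h).trans (hb y' (hy'.trans hz))

lemma explainsBMG_iff (G : L → L → Prop) :
    ExplainsBMG T σ G ↔ ∀ x y, G x y ↔ σ x ≠ σ y ∧ Best T σ x y := by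
  simp [ExplainsBMG]

end Basic

section Restrict

variable {L : Type u} [Finite L] (T : Tree L) (W : Set L)

/-- The restriction of a tree to a nonempty set of leaves. -/
def restrict (hW : W.Nonempty) : Tree W where
  cl := {B | B.Nonempty ∧ ∃ A ∈ T.cl, B = Subtype.val ⁻¹' A}
  univ_mem := ⟨by obtain ⟨x, hx⟩ := hW; exact ⟨⟨x, hx⟩, trivial⟩, Set.univ, T.univ_mem, rfl⟩
  singleton_mem x := ⟨⟨x, rfl⟩, {x.1}, T.singleton_mem _, by
    ext y
    simp [Subtype.ext_iff]⟩
  nonempty := fun A hA => hA.1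
  nested := by
    rintro _ ⟨-, A, hA, rfl⟩ _ ⟨-, B, hB, rfl⟩
    rcases T.nested A hA B hB with h | h | h
    · exact Or.inl (Set.preimage_mono h)
    · exact Or.inr (Or.inl (Set.preimage_mono h))
    · exact Or.inr (Or.inr (h.preimage _))

lemma restrict_lca (hW : W.Nonempty) (x y : W) :
    (restrict T W hW).lca x y = Subtype.val ⁻¹' (T.lca x.1 y.1) := by
  apply Set.Subset.antisymm
  · exact lca_le _ ⟨⟨x, left_mem T _ _⟩, _, lca_mem T _ _, rfl⟩ (left_mem T _ _) (right_mem T _ _)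
  · apply Set.subset_sInter
    rintro _ ⟨⟨-, A, hA, rfl⟩, hx, hy⟩
    exact Set.preimage_mono (lca_le T hA hx hy)

/-- If `T` explains the qBMG `G` and `G[W]` is a BMG then the restriction of `T` to `W`
explains `G[W]`. -/
lemma restrict_explains {S : Type v} (σ : L → S) (t : L → S → Set L) (G : L → L → Prop)
    (hT : Explains T σ t G) (hW : W.Nonempty) (T₀ : Tree W)
    (h₀ : ExplainsBMG T₀ (fun x : W => σ x) (fun x y : W => G x y)) :
    ExplainsBMG (restrict T W hW) (fun x : W => σ x) (fun x y : W => G x y) := by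
  rw [explainsBMG_iff] at h₀ ⊢
  intro x y
  constructor
  · intro h
    obtain ⟨h1, h2, -⟩ := (hT.2 x y).1 h
    refine ⟨h1, ?_⟩
    rw [best_iff] at h2 ⊢
    intro y' hy'
    rw [restrict_lca, restrict_lca]
    exact Set.preimage_mono (h2 y' hy')
  · rintro ⟨h1, h2⟩
    obtain ⟨y₀, hy₀, hb₀⟩ := exists_best T₀ (fun x : W => σ x) x y
    have hG : G x y₀ := (h₀ x y₀).2 ⟨by
      have : σ y₀.1 = σ y.1 := hy₀
      change σ x.1 ≠ σ y₀.1
      rw [this]
      exact h1, hb₀⟩
    obtain ⟨-, h4, h5⟩ := (hT.2 x y₀).1 hG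
    rw [best_iff] at h2
    have h6 := h2 y₀ hy₀
    rw [restrict_lca, restrict_lca] at h6
    have h7 : y.1 ∈ T.lca x y₀ := h6 (right_mem T x.1 y.1)
    have h8 : Best T σ x y := best_of_mem T σ h4 (Eq.symm hy₀) h7
    refine (hT.2 x y).2 ⟨h1, h8, ?_⟩
    have h9 : T.lca x y ⊆ T.lca x y₀ := lca_le T (lca_mem T _ _) (left_mem T _ _) h7
    have h10 : σ y.1 = σ y₀.1 := Eq.symm hy₀
    rw [h10]
    exact h9.trans h5

end Restrict

section Unique

variable {L : Type u} [Finite L] {S : Type v} {σ : L → S} {G : L → L → Prop}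

/-- A cluster `A` of `T` is relevant. -/
def Relevant (T : Tree L) (σ : L → S) (A : Set L) : Prop :=
  ∃ x y z, T.lca x y = A ∧ Best T σ x y ∧ σ z = σ y ∧ σ x ≠ σ y ∧ z ∉ A ∧
    ∀ B ∈ T.cl, A ⊂ B → z ∈ B

/-- Removing a cluster which is neither the root nor a leaf. -/
def remove (T : Tree L) (A : Set L) (h1 : A ≠ Set.univ) (h2 : ∀ x, A ≠ {x}) : Tree L where
  cl := T.cl \ {A}
  univ_mem := ⟨T.univ_mem, fun h => h1 h.symm⟩
  singleton_mem x := ⟨T.singleton_mem x, fun h => h2 x h.symm⟩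
  nonempty B hB := T.nonempty B hB.1
  nested B hB C hC := T.nested B hB.1 C hC.1

/-- The inner clusters of a least resolved tree are relevant. -/
lemma relevant_of_minimal (T : Tree L) (hT : IsLRTofBMG T σ G) (A : Set L) (hA : A ∈ T.cl)
    (h1 : A ≠ Set.univ) (h2 : ∀ x, A ≠ {x}) : Relevant T σ A := by
  have hE := (explainsBMG_iff T σ G).1 hT.1
  have hnot := hT.2 (remove T A h1 h2) ⟨Set.sdiff_subset, fun h => (h hA).2 rfl⟩
  rw [explainsBMG_iff] at hnot
  set T' := remove T A h1 h2 with hT'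
  have hsub : ∀ x y, T.lca x y ⊆ T'.lca x y := fun x y =>
    lca_le T (lca_mem T' x y).1 (left_mem T' x y) (right_mem T' x y)
  have hmono : ∀ x y, Best T σ x y → Best T' σ x y := by
    intro x y hb
    rw [best_iff] at hb ⊢
    intro y' hy'
    apply lca_le T' (lca_mem T' x y') (left_mem T' x y')
    exact hsub x y' (hb y' hy' (right_mem T x y))
  push Not at hnot
  obtain ⟨x, z, hxz⟩ := hnot
  have hxz' : σ x ≠ σ z ∧ Best T' σ x z ∧ ¬ Best T σ x z := by
    rcases hxz with ⟨h, h'⟩ | ⟨h, h'⟩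
    · obtain ⟨h3, h4⟩ := (hE x z).1 h
      exact absurd (hmono x z h4) (h' h3)
    · refine ⟨h'.1, h'.2, fun hb => h ((hE x z).2 ⟨h'.1, hb⟩)⟩
  obtain ⟨hc, hb', hnb⟩ := hxz'
  obtain ⟨y, hy, hby⟩ := exists_best T σ x z
  have hz : z ∉ T.lca x y := fun h => hnb (best_of_mem T σ hby hy.symm h)
  have hzz : z ∈ T'.lca x y := by
    rw [best_iff] at hb'
    exact hb' y hy (right_mem T' x z)
  have hAeq : T.lca x y = A := by
    by_contra hne
    have : T'.lca x y ⊆ T.lca x y :=
      lca_le T' ⟨lca_mem T x y, hne⟩ (left_mem T x y) (right_mem T x y)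
    exact hz (this hzz)
  refine ⟨x, y, z, hAeq, hby, hy.symm, by rw [hy]; exact hc, hAeq ▸ hz, ?_⟩
  intro B hB hAB
  have hx : x ∈ A := hAeq ▸ left_mem T x y
  have hyA : y ∈ A := hAeq ▸ right_mem T x y
  exact lca_le T' (A := B) ⟨hB, fun h => hAB.2 (h ▸ subset_rfl)⟩ (hAB.1 hx) (hAB.1 hyA) hzz

/-- A relevant cluster of an explaining tree is a cluster of every explaining tree. -/
lemma mem_of_relevant (T T' : Tree L) (hT : ExplainsBMG T σ G) (hT' : ExplainsBMG T' σ G)
    (A : Set L) (hrel : Relevant T σ A) : A ∈ T'.cl := by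
  rw [explainsBMG_iff] at hT hT'
  obtain ⟨x, y, z, hlca, hby, hzy, hxy, hzA, hzB⟩ := hrel
  have hAcl : A ∈ T.cl := hlca ▸ lca_mem T x y
  have hxA : x ∈ A := hlca ▸ left_mem T x y
  have hyA : y ∈ A := hlca ▸ right_mem T x y
  have hxy' : Best T' σ x y := ((hT' x y).1 ((hT x y).2 ⟨hxy, hby⟩)).2
  -- leaves of colour `σ y` in `A` lie below `p = lca'(x,y)`
  have hr : ∀ a ∈ A, σ a = σ y → a ∈ T'.lca x y := by
    intro a ha hay
    have h1 : Best T σ x a := best_of_mem T σ hby hay (hlca ▸ ha)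
    have h2 : Best T' σ x a := ((hT' x a).1 ((hT x a).2 ⟨by rw [hay]; exact hxy, h1⟩)).2
    rw [best_iff] at h2
    exact h2 y hay.symm (right_mem T' x a)
  -- the key claim
  have key : ∀ z', z' ∉ A → σ z' = σ y → ∃ Q ∈ T'.cl, A ⊆ Q ∧ z' ∉ Q := by
    intro z' hz'A hz'
    have hzp : z' ∉ T'.lca x y := by
      intro h
      have h1 : Best T' σ x z' := best_of_mem T' σ hxy' hz' h
      have h2 : Best T σ x z' := ((hT x z').1 ((hT' x z').2 ⟨by rw [hz']; exact hxy, h1⟩)).2
      rw [best_iff] at h2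
      have h3 := h2 y hz'.symm (right_mem T x z')
      rw [hlca] at h3
      exact hz'A h3
    -- the largest cluster of `T'` containing `x` and not `z'`
    obtain ⟨Q, ⟨hQ, hxQ, hzQ⟩, hmax⟩ := (wellFounded_gt (α := Set L)).has_min
      {B | B ∈ T'.cl ∧ x ∈ B ∧ z' ∉ B} ⟨_, lca_mem T' x y, left_mem T' x y, hzp⟩
    have hQmax : ∀ B ∈ T'.cl, x ∈ B → z' ∉ B → B ⊆ Q := by
      intro B hB hxB hzB
      rcases comparable T' hB hQ hxB hxQ with h | h
      · exact h
      · by_contra hc
        exact hmax B ⟨hB, hxB, hzB⟩ ⟨h, hc⟩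
    refine ⟨Q, hQ, ?_, hzQ⟩
    intro a ha
    by_cases hay : σ a = σ y
    · exact hQmax _ (lca_mem T' x y) (left_mem T' x y) hzp (hr a ha hay)
    · obtain ⟨y', hy', hby'⟩ := exists_best T σ a y
      have hy'A : y' ∈ A := by
        have h1 := hby'
        rw [best_iff] at h1
        exact lca_le T hAcl ha hyA (h1 y hy'.symm (right_mem T a y'))
      have hay' : σ a ≠ σ y' := by rw [hy']; exact hay
      have h2 : Best T' σ a y' := ((hT' a y').1 ((hT a y').2 ⟨hay', hby'⟩)).2
      have h3 : z' ∉ T'.lca a y' := by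
        intro h
        have h4 : Best T' σ a z' := best_of_mem T' σ h2 (hz'.trans hy'.symm) h
        have h5 : Best T σ a z' :=
          ((hT a z').1 ((hT' a z').2 ⟨by rw [hz']; exact hay, h4⟩)).2
        rw [best_iff] at h5
        exact hz'A (lca_le T hAcl ha hyA (h5 y hz'.symm (right_mem T a z')))
      have hy'Q : y' ∈ Q :=
        hQmax _ (lca_mem T' x y) (left_mem T' x y) hzp (hr y' hy'A hy')
      rcases comparable T' (lca_mem T' a y') hQ (right_mem T' a y') hy'Q with h | h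
      · exact h (left_mem T' a y')
      · exact hQmax _ (lca_mem T' a y') (h hxQ) h3 (left_mem T' a y')
  have hz' : ∀ z', z' ∉ A → σ z' = σ y → z' ∉ hull T' A := by
    intro z' h1 h2 h3
    obtain ⟨Q, hQ, hAQ, hzQ⟩ := key z' h1 h2
    exact hzQ (hull_le T' hQ hAQ h3)
  have hh : hull T' A ∈ T'.cl := hull_mem T' ⟨x, hxA⟩
  have hA' : hull T' A = A := by
    apply Set.Subset.antisymm _ (subset_hull T' A)
    intro b hb
    by_contra hbA
    have hby : σ b ≠ σ y := fun h => hz' b hbA h hb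
    obtain ⟨y'', hy'', hby''⟩ := exists_best T' σ b y
    have h1 : T'.lca b y'' ⊆ hull T' A := by
      have h2 := hby''
      rw [best_iff] at h2
      exact (h2 y hy''.symm).trans (lca_le T' hh hb (subset_hull T' A hyA))
    have hy''A : y'' ∈ A := by
      by_contra hc
      exact hz' y'' hc hy'' (h1 (right_mem T' b y''))
    have hbc : σ b ≠ σ y'' := by rw [hy'']; exact hby
    have h3 : Best T σ b y'' := ((hT b y'').1 ((hT' b y'').2 ⟨hbc, hby''⟩)).2
    have h4 : A ⊂ T.lca b y'' := by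
      rcases comparable T hAcl (lca_mem T b y'') hy''A (right_mem T b y'') with h | h
      · exact ⟨h, fun h' => hbA (h' (left_mem T b y''))⟩
      · exact absurd (h (left_mem T b y'')) hbA
    have h5 : Best T σ b z :=
      best_of_mem T σ h3 (hzy.trans hy''.symm) (hzB _ (lca_mem T b y'') h4)
    have h6 : Best T' σ b z := ((hT' b z).1 ((hT b z).2 ⟨by rw [hzy]; exact hby, h5⟩)).2
    rw [best_iff] at h6
    exact hz' z hzA hzy (h1 (h6 y'' (hy''.trans hzy.symm) (right_mem T' b z)))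
  rw [← hA']
  exact hh

/-- A least resolved tree of a BMG has its clusters in every tree which explains the BMG. -/
lemma least (T T' : Tree L) (hT : IsLRTofBMG T σ G) (hT' : ExplainsBMG T' σ G) :
    T.cl ⊆ T'.cl := by
  intro A hA
  by_cases h1 : A = Set.univ
  · rw [h1]
    exact T'.univ_mem
  by_cases h2 : ∃ x, A = {x}
  · obtain ⟨x, rfl⟩ := h2
    exact T'.singleton_mem x
  push Not at h2
  exact mem_of_relevant T T' hT.1 hT' A (relevant_of_minimal T hT A hA h1 h2)

lemma tree_ext {T T' : Tree L} (h : T.cl = T'.cl) : T = T' := by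
  cases T
  cases T'
  simp only at h
  subst h
  rfl

/-- Every BMG has a least resolved tree. -/
lemma exists_LRT (T₀ : Tree L) (h₀ : ExplainsBMG T₀ σ G) : ∃ T : Tree L, IsLRTofBMG T σ G := by
  obtain ⟨C, ⟨T, rfl, hT⟩, hmin⟩ := (wellFounded_lt (α := Set (Set L))).has_min
    {C | ∃ T : Tree L, T.cl = C ∧ ExplainsBMG T σ G} ⟨_, T₀, rfl, h₀⟩
  exact ⟨T, hT, fun T' h h' => hmin T'.cl ⟨T', rfl, h'⟩ h⟩

end Unique

/-- Let `(G,σ)` be a vertex-coloured digraph with finite vertex set `L` and let `W` be any nonempty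
set of vertices such that `(G,σ)[W]` is a BMG (no maximality of `W` is needed). Then `(G,σ)[W]` has a unique least resolved tree `TW`, and `TW` is
displayed by every least resolved tree of `(G,σ)`, and even by every tree which explains `(G,σ)`
with some truncation map. -/
theorem result (L : Type u) [Finite L] (S : Type v) (σ : L → S) (G : L → L → Prop)
    (W : Set L) (hW : W.Nonempty)
    (hBMG : ∃ T₀ : Tree W, ExplainsBMG T₀ (fun x : W => σ x) (fun x y : W => G x y)) :
    ∃ TW : Tree W,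
      IsLRTofBMG TW (fun x : W => σ x) (fun x y : W => G x y) ∧
      (∀ T' : Tree W, IsLRTofBMG T' (fun x : W => σ x) (fun x y : W => G x y) → T' = TW) ∧
      (∀ T : Tree L, IsLRT T σ G → Displays T TW) ∧
      (∀ (T : Tree L) (t : L → S → Set L), Explains T σ t G → Displays T TW) := by
  obtain ⟨T₀, h₀⟩ := hBMG
  obtain ⟨TW, hTW⟩ := exists_LRT T₀ h₀
  have hmain : ∀ (T : Tree L) (t : L → S → Set L), Explains T σ t G → Displays T TW :=
    fun T t hT => least TW (restrict T W hW) hTW (restrict_explains T W σ t G hT hW T₀ h₀)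
  refine ⟨TW, hTW, ?_, ?_, hmain⟩
  · intro T' hT'
    apply tree_ext
    exact Set.Subset.antisymm (least T' TW hT' hTW.1) (least TW T' hTW hT'.1)
  · rintro T ⟨⟨t, ht⟩, -⟩
    exact hmain T t ht

end Pool.Agent.Results.MP_5c2e51_co.DisplaysLRT
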